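import Mathlib
import Pool.Agent.Q108.Petersen2

set_option autoImplicit false

/-!
# MP_b9f640_co: infinitely many cubic Hamiltonian graphs with Hamiltonian extension number 5

The generalized Petersen graphs `GP(6m+10, 2)`, `m ≥ 0` (the first is the dodecahedron graph), are
3-regular Hamiltonian graphs with Hamiltonian extension number exactly 5.
-/

namespace Pool.Agent.Results.MP_b9f640_co.HeFive

open SimpleGraph

section defs
variable {V : Type} [DecidableEq V] (G : SimpleGraph V)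

/-- The path (walk) `p` lies on the closed walk `c`: every vertex and every edge of `p` is in `c`. -/
def LiesOn {G : SimpleGraph V} {a b v : V} (p : G.Walk a b) (c : G.Walk v v) : Prop :=
  (∀ x ∈ p.support, x ∈ c.support) ∧ (∀ e ∈ p.edges, e ∈ c.edges)

/-- Every path of order `i` (that is, with `i` vertices) lies on some Hamiltonian cycle. -/
def EveryPathExtends (i : ℕ) : Prop :=
  ∀ (a b : V) (p : G.Walk a b), p.IsPath → p.length + 1 = i →
    ∃ (v : V) (c : G.Walk v v), c.IsHamiltonianCycle ∧ LiesOn p c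

/-- The Hamiltonian extension number: the largest `k` with `1 ≤ k ≤ |V|` such that for every
`1 ≤ i ≤ k` every path of order `i` lies on some Hamiltonian cycle. -/
noncomputable def he : ℕ :=
  sSup {k : ℕ | 1 ≤ k ∧ k ≤ Nat.card V ∧ ∀ i, 1 ≤ i → i ≤ k → EveryPathExtends G i}

end defs

/-- The generalized Petersen graph `GP(n,k)`: vertices `u_i = (false, i)` and `v_i = (true, i)`
for `i ∈ ZMod n`; edges `u_i u_{i+1}`, `v_i v_{i+k}` and `u_i v_i`. -/
def GP (n k : ℕ) : SimpleGraph (Bool × ZMod n) where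
  Adj x y := x ≠ y ∧
    ((x.1 = false ∧ y.1 = false ∧ (y.2 = x.2 + 1 ∨ x.2 = y.2 + 1)) ∨
     (x.1 = true ∧ y.1 = true ∧ (y.2 = x.2 + k ∨ x.2 = y.2 + k)) ∨
     (x.1 ≠ y.1 ∧ x.2 = y.2))
  symm := ⟨by
    rintro x y ⟨hne, h⟩
    refine ⟨hne.symm, ?_⟩
    rcases h with ⟨h1, h2, h3⟩ | ⟨h1, h2, h3⟩ | ⟨h1, h2⟩
    · exact Or.inl ⟨h2, h1, h3.symm⟩
    · exact Or.inr (Or.inl ⟨h2, h1, h3.symm⟩)
    · exact Or.inr (Or.inr ⟨h1.symm, h2.symm⟩)⟩
  loopless := ⟨fun x h => h.1 rfl⟩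

open Pool.Agent.Q108.Petersen2 in
lemma GP_eq (n k : ℕ) : GP n k = Pool.Agent.Q108.Petersen2.GP n k := rfl

section lower
open Pool.Agent.Q108.Petersen2 (main5 extend stpZ_adj)

lemma ext5 (m : ℕ) (i : ℕ) (h1 : 1 ≤ i) (h5 : i ≤ 5) : EveryPathExtends (GP (6 * m + 10) 2) i := by
  intro a b p hp hlen
  have key : ∀ (x0 x1 x2 x3 x4 : Bool × ZMod (6 * m + 10))
      (h1 : (GP (6 * m + 10) 2).Adj x0 x1) (h2 : (GP (6 * m + 10) 2).Adj x1 x2)
      (h3 : (GP (6 * m + 10) 2).Adj x2 x3) (h4 : (GP (6 * m + 10) 2).Adj x3 x4)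
      (n1 : x2 ≠ x0) (n2 : x3 ≠ x1) (n3 : x4 ≠ x2),
      ∃ (v : Bool × ZMod (6 * m + 10)) (w : (GP (6 * m + 10) 2).Walk v v), w.IsHamiltonianCycle ∧
        s(x0, x1) ∈ w.edges ∧ s(x1, x2) ∈ w.edges ∧ s(x2, x3) ∈ w.edges ∧ s(x3, x4) ∈ w.edges :=
    main5 m
  have ext : ∀ (x y : Bool × ZMod (6 * m + 10)), ∃ z, (GP (6 * m + 10) 2).Adj y z ∧ z ≠ x :=
    extend m
  have fin : ∀ (v : Bool × ZMod (6 * m + 10)) (w : (GP (6 * m + 10) 2).Walk v v),
      w.IsHamiltonianCycle → (∀ e ∈ p.edges, e ∈ w.edges) →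
      ∃ (v : Bool × ZMod (6 * m + 10)) (c : (GP (6 * m + 10) 2).Walk v v),
        c.IsHamiltonianCycle ∧ LiesOn p c :=
    fun v w hw he => ⟨v, w, hw, fun x _ => hw.mem_support x, he⟩
  match p, hp, hlen, fin with
  | .nil, hp, hlen, fin =>
    obtain ⟨x1, h1, -⟩ := ext a a
    obtain ⟨x2, h2, n2⟩ := ext a x1
    obtain ⟨x3, h3, n3⟩ := ext x1 x2
    obtain ⟨x4, h4, n4⟩ := ext x2 x3
    obtain ⟨v, w, hw, -⟩ := key a x1 x2 x3 x4 h1 h2 h3 h4 n2 n3 n4
    exact fin v w hw (by simp)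
  | .cons (v := x1) h1 .nil, hp, hlen, fin =>
    obtain ⟨x2, h2, n2⟩ := ext a x1
    obtain ⟨x3, h3, n3⟩ := ext x1 x2
    obtain ⟨x4, h4, n4⟩ := ext x2 x3
    obtain ⟨v, w, hw, e1, -⟩ := key a x1 x2 x3 x4 h1 h2 h3 h4 n2 n3 n4
    exact fin v w hw (by simpa using e1)
  | .cons (v := x1) h1 (.cons (v := x2) h2 .nil), hp, hlen, fin =>
    obtain ⟨x3, h3, n3⟩ := ext x1 x2
    obtain ⟨x4, h4, n4⟩ := ext x2 x3
    have n2 : x2 ≠ a := by
      intro h; subst h; simp [Walk.isPath_def] at hp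
    obtain ⟨v, w, hw, e1, e2, -⟩ := key a x1 x2 x3 x4 h1 h2 h3 h4 n2 n3 n4
    exact fin v w hw (by simpa using ⟨e1, e2⟩)
  | .cons (v := x1) h1 (.cons (v := x2) h2 (.cons (v := x3) h3 .nil)), hp, hlen, fin =>
    obtain ⟨x4, h4, n4⟩ := ext x2 x3
    have n2 : x2 ≠ a := by
      intro h; subst h; simp [Walk.isPath_def] at hp
    have n3 : x3 ≠ x1 := by
      intro h; subst h; simp [Walk.isPath_def] at hp
    obtain ⟨v, w, hw, e1, e2, e3, -⟩ := key a x1 x2 x3 x4 h1 h2 h3 h4 n2 n3 n4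
    exact fin v w hw (by simpa using ⟨e1, e2, e3⟩)
  | .cons (v := x1) h1 (.cons (v := x2) h2 (.cons (v := x3) h3 (.cons (v := x4) h4 .nil))), hp,
      hlen, fin =>
    have n2 : x2 ≠ a := by
      intro h; subst h; simp [Walk.isPath_def] at hp
    have n3 : x3 ≠ x1 := by
      intro h; subst h; simp [Walk.isPath_def] at hp
    have n4 : x4 ≠ x2 := by
      intro h; subst h; simp [Walk.isPath_def] at hp
    obtain ⟨v, w, hw, e1, e2, e3, e4⟩ := key a x1 x2 x3 x4 h1 h2 h3 h4 n2 n3 n4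
    exact fin v w hw (by simpa using ⟨e1, e2, e3, e4⟩)
  | .cons (v := x1) h1 (.cons (v := x2) h2 (.cons (v := x3) h3 (.cons (v := x4) h4
      (.cons h5 p)))), hp, hlen, fin =>
    exfalso
    simp only [Walk.length_cons] at hlen
    omega

end lower

section upper
open Pool.Agent.Q108.Petersen2 (cast_ne neighborSet_eq)

/-- a hole: a vertex `x` with two neighbours used up by the path -/
lemma hole {V : Type} [DecidableEq V] {G : SimpleGraph V} {v : V} {c : G.Walk v v}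
    (hc : c.IsHamiltonianCycle) (p u x a b w q : V) (hx : ∀ y, G.Adj x y → y = u ∨ y = w ∨ y = q)
    (h1 : s(p, u) ∈ c.edges) (h2 : s(u, a) ∈ c.edges) (h3 : s(b, w) ∈ c.edges)
    {r : V} (h4 : s(w, r) ∈ c.edges) (hpx : p ≠ x) (hax : a ≠ x) (hbx : b ≠ x) (hrx : r ≠ x)
    (hpa : p ≠ a) (hbr : b ≠ r) : False := by
  have H : ∀ y : V, (c.toSubgraph.neighborSet y).ncard = 2 := fun y =>
    hc.isCycle.ncard_neighborSet_toSubgraph_eq_two (hc.mem_support y)
  have A : ∀ y z : V, s(y, z) ∈ c.edges → z ∈ c.toSubgraph.neighborSet y := fun y z h =>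
    (Walk.adj_toSubgraph_iff_mem_edges).2 h
  have B : ∀ y z1 z2 z3 : V, z1 ∈ c.toSubgraph.neighborSet y → z2 ∈ c.toSubgraph.neighborSet y →
      z3 ∈ c.toSubgraph.neighborSet y → z1 ≠ z2 → z1 ≠ z3 → z2 ≠ z3 → False := by
    intro y z1 z2 z3 g1 g2 g3 n1 n2 n3
    have hsub : ({z1, z2, z3} : Set V) ⊆ c.toSubgraph.neighborSet y := by
      intro z hz
      simp only [Set.mem_insert_iff, Set.mem_singleton_iff] at hz
      rcases hz with rfl | rfl | rfl <;> assumption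
    have h5 := Set.ncard_le_ncard hsub (Walk.finite_neighborSet_toSubgraph c)
    rw [H y, Set.ncard_eq_three.2 ⟨z1, z2, z3, n1, n2, n3, rfl⟩] at h5
    omega
  have hu : u ∉ c.toSubgraph.neighborSet x := by
    intro h
    have h' : x ∈ c.toSubgraph.neighborSet u := SimpleGraph.Subgraph.Adj.symm h
    exact B u p a x (A _ _ (by rw [Sym2.eq_swap]; exact h1)) (A _ _ h2) h' hpa hpx hax
  have hw : w ∉ c.toSubgraph.neighborSet x := by
    intro h
    have h' : x ∈ c.toSubgraph.neighborSet w := SimpleGraph.Subgraph.Adj.symm h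
    exact B w b r x (A _ _ (by rw [Sym2.eq_swap]; exact h3)) (A _ _ h4) h' hbr hbx hrx
  have hsub : c.toSubgraph.neighborSet x ⊆ {q} := by
    intro y hy
    rcases hx y (c.toSubgraph.adj_sub hy) with rfl | rfl | rfl
    · exact absurd hy hu
    · exact absurd hy hw
    · rfl
  have h6 := Set.ncard_le_ncard hsub (Set.finite_singleton q)
  rw [H x, Set.ncard_singleton] at h6
  omega

lemma not_ext6 (m : ℕ) : ¬ EveryPathExtends (GP (6 * m + 10) 2) 6 := by
  intro hE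
  have c12 := cast_ne m 1 2 (by norm_num) (by norm_num) (by norm_num)
  have c14 := cast_ne m 1 4 (by norm_num) (by norm_num) (by norm_num)
  have c15 := cast_ne m 1 5 (by norm_num) (by norm_num) (by norm_num)
  have c24 := cast_ne m 2 4 (by norm_num) (by norm_num) (by norm_num)
  have c25 := cast_ne m 2 5 (by norm_num) (by norm_num) (by norm_num)
  have c45 := cast_ne m 4 5 (by norm_num) (by norm_num) (by norm_num)
  have c13 := cast_ne m 1 3 (by norm_num) (by norm_num) (by norm_num)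
  have c53 := cast_ne m 5 3 (by norm_num) (by norm_num) (by norm_num)
  push_cast at c12 c14 c15 c24 c25 c45 c13 c53
  have a1 : (GP (6 * m + 10) 2).Adj (false, 1) (false, 2) :=
    ⟨by simpa using c12, Or.inl ⟨rfl, rfl, Or.inl (by norm_num)⟩⟩
  have a2 : (GP (6 * m + 10) 2).Adj (false, 2) (true, 2) :=
    ⟨by simp, Or.inr (Or.inr ⟨by simp, rfl⟩)⟩
  have a3 : (GP (6 * m + 10) 2).Adj (true, 2) (true, 4) :=
    ⟨by simpa using c24, Or.inr (Or.inl ⟨rfl, rfl, Or.inl (by push_cast; norm_num)⟩)⟩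
  have a4 : (GP (6 * m + 10) 2).Adj (true, 4) (false, 4) :=
    ⟨by simp, Or.inr (Or.inr ⟨by simp, rfl⟩)⟩
  have a5 : (GP (6 * m + 10) 2).Adj (false, 4) (false, 5) :=
    ⟨by simpa using c45, Or.inl ⟨rfl, rfl, Or.inl (by norm_num)⟩⟩
  obtain ⟨v, c, hc, -, he⟩ := hE _ _ (.cons a1 (.cons a2 (.cons a3 (.cons a4 (.cons a5 .nil)))))
    (by simp [Walk.isPath_def, c12, c14, c15, c24, c25, c45]) (by simp)
  simp only [Walk.edges_cons, Walk.edges_nil, List.mem_cons, List.not_mem_nil, or_false,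
    forall_eq_or_imp, forall_eq] at he
  obtain ⟨e1, e2, e3, e4, e5⟩ := he
  refine hole hc (false, 1) (false, 2) (false, 3) (true, 2) (true, 4) (false, 4) (true, 3)
    ?_ e1 e2 e4 e5 ?_ ?_ ?_ ?_ ?_ ?_
  · intro y hy
    have hy' : y ∈ (Pool.Agent.Q108.Petersen2.GP (6 * m + 10) 2).neighborSet (false, 3) := hy
    rw [neighborSet_eq] at hy'
    simp only [Set.mem_insert_iff, Set.mem_singleton_iff, Pool.Agent.Q108.Petersen2.stpZ] at hy'
    rcases hy' with rfl | rfl | rfl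
    · right; left
      refine Prod.ext rfl ?_
      simp; norm_num
    · left
      refine Prod.ext rfl ?_
      simp; norm_num
    · right; right
      refine Prod.ext rfl ?_
      simp
  · simpa using c13
  · simp
  · simp
  · simpa using c53
  · simp
  · simp

end upper

/-- For every `m ≥ 0` the generalized Petersen graph `GP(6m+10, 2)` is 3-regular and Hamiltonian
and has Hamiltonian extension number 5, and these graphs are pairwise non-isomorphic. -/
theorem result :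
    (∀ m : ℕ, (∀ x, ((GP (6 * m + 10) 2).neighborSet x).ncard = 3) ∧
      (GP (6 * m + 10) 2).IsHamiltonian ∧ he (GP (6 * m + 10) 2) = 5) ∧
    (∀ m m' : ℕ, m ≠ m' → IsEmpty (GP (6 * m + 10) 2 ≃g GP (6 * m' + 10) 2)) := by
  have hcard : ∀ m : ℕ, Nat.card (Bool × ZMod (6 * m + 10)) = 2 * (6 * m + 10) := by
    intro m
    rw [Nat.card_prod, Nat.card_zmod]
    simp
  refine ⟨fun m => ⟨Pool.Agent.Q108.Petersen2.cubic m, ?_, ?_⟩, ?_⟩
  · intro _
    obtain ⟨v, c, hc, -⟩ := ext5 m 1 le_rfl (by norm_num) ((false, 0) : Bool × ZMod (6 * m + 10))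
      (false, 0) .nil (by simp) (by simp)
    exact ⟨v, c, hc⟩
  · have hmem : 5 ∈ {k : ℕ | 1 ≤ k ∧ k ≤ Nat.card (Bool × ZMod (6 * m + 10)) ∧
        ∀ i, 1 ≤ i → i ≤ k → EveryPathExtends (GP (6 * m + 10) 2) i} :=
      ⟨by norm_num, by rw [hcard]; omega, fun i h1 h5 => ext5 m i h1 h5⟩
    have hub : ∀ k ∈ {k : ℕ | 1 ≤ k ∧ k ≤ Nat.card (Bool × ZMod (6 * m + 10)) ∧
        ∀ i, 1 ≤ i → i ≤ k → EveryPathExtends (GP (6 * m + 10) 2) i}, k ≤ 5 := by
      rintro k ⟨-, -, hk⟩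
      by_contra hlt
      exact not_ext6 m (hk 6 (by norm_num) (by omega))
    exact le_antisymm (csSup_le ⟨5, hmem⟩ hub) (le_csSup ⟨5, hub⟩ hmem)
  · intro m m' hne
    refine ⟨fun f => hne ?_⟩
    have := Nat.card_congr f.toEquiv
    rw [hcard, hcard] at this
    omega

end Pool.Agent.Results.MP_b9f640_co.HeFive
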